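import Pool.Agent.H317.GR.StmC

/-!
# Project GR, MUL: multilinearity of the last commutator in a nilpotent group
-/

set_option autoImplicit false

namespace Pool.Agent.H706.GR

open Pool.Agent.H317.GR
open scoped commutatorElement

/-- Commutators of powers, if the commutator is central. -/
theorem comm_pow {Q : Type} [Group Q] {a b : Q} (hc : ∀ g : Q, ⁅a, b⁆ * g = g * ⁅a, b⁆) (r s : ℕ) :
    ⁅a ^ r, b ^ s⁆ = ⁅a, b⁆ ^ (r * s) := by
  set c := ⁅a, b⁆ with hcd
  have hcn : ∀ (n : ℕ) (g : Q), c ^ n * g = g * c ^ n := by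
    intro n g
    exact (Commute.pow_left (hc g) n).eq
  have h1 : a * b = c * b * a := by
    rw [hcd, commutatorElement_def]
    group
  have h2 : ∀ s : ℕ, a * b ^ s = c ^ s * b ^ s * a := by
    intro s
    induction s with
    | zero => simp
    | succ s ih =>
      calc a * b ^ (s + 1) = (a * b ^ s) * b := by rw [pow_succ, mul_assoc]
        _ = c ^ s * b ^ s * (a * b) := by rw [ih]; group
        _ = c ^ s * (b ^ s * c) * b * a := by rw [h1]; group
        _ = c ^ s * (c * b ^ s) * b * a := by rw [← hc (b ^ s)]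
        _ = c ^ (s + 1) * b ^ (s + 1) * a := by rw [pow_succ, pow_succ]; group
  have h3 : ∀ r : ℕ, a ^ r * b ^ s = c ^ (r * s) * b ^ s * a ^ r := by
    intro r
    induction r with
    | zero => simp
    | succ r ih =>
      calc a ^ (r + 1) * b ^ s = a ^ r * (a * b ^ s) := by rw [pow_succ, mul_assoc]
        _ = (a ^ r * c ^ s) * b ^ s * a := by rw [h2]; group
        _ = (c ^ s * a ^ r) * b ^ s * a := by rw [hcn s (a ^ r)]
        _ = c ^ s * (a ^ r * b ^ s) * a := by group
        _ = c ^ s * (c ^ (r * s) * b ^ s * a ^ r) * a := by rw [ih]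
        _ = (c ^ s * c ^ (r * s)) * b ^ s * (a ^ r * a) := by group
        _ = c ^ ((r + 1) * s) * b ^ s * a ^ (r + 1) := by
          rw [← pow_add, ← pow_succ]
          congr 3
          ring
  rw [commutatorElement_def, h3 r]
  group

/-- Central factors do not change commutators. -/
theorem comm_central {Q : Type} [Group Q] {a b u : Q} (hu : ∀ g : Q, u * g = g * u) :
    ⁅a * u, b⁆ = ⁅a, b⁆ := by
  rw [commutatorElement_def, commutatorElement_def, mul_inv_rev]
  calc a * u * b * (u⁻¹ * a⁻¹) * b⁻¹ = a * (u * b) * u⁻¹ * a⁻¹ * b⁻¹ := by group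
    _ = a * (b * u) * u⁻¹ * a⁻¹ * b⁻¹ := by rw [hu b]
    _ = _ := by group

theorem LC_mem {G : Type} [Group G] (x : ℕ → G) (j : ℕ) :
    LC x j ∈ (⊤ : Subgroup G).lowerCentralSeries j := by
  induction j with
  | zero => exact Subgroup.mem_top _
  | succ j ih =>
    rw [Subgroup.lowerCentralSeries_succ]
    exact Subgroup.commutator_mem_commutator ih (Subgroup.mem_top _)

/-- The elements of `L_j` are central modulo `L_{j+1}`. -/
theorem central {G : Type} [Group G] {j : ℕ} {w : G} (hw : w ∈ (⊤ : Subgroup G).lowerCentralSeries j)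
    (q : G ⧸ (⊤ : Subgroup G).lowerCentralSeries (j + 1)) :
    (QuotientGroup.mk w : G ⧸ (⊤ : Subgroup G).lowerCentralSeries (j + 1)) * q =
      q * QuotientGroup.mk w := by
  obtain ⟨g, rfl⟩ := QuotientGroup.mk_surjective q
  rw [← QuotientGroup.mk_mul, ← QuotientGroup.mk_mul, eq_comm, QuotientGroup.eq]
  have h1 : ⁅w⁻¹, g⁻¹⁆ ∈ (⊤ : Subgroup G).lowerCentralSeries (j + 1) := by
    rw [Subgroup.lowerCentralSeries_succ]
    exact Subgroup.commutator_mem_commutator (inv_mem hw) (Subgroup.mem_top _)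
  have h2 : (g * w)⁻¹ * (w * g) = ⁅w⁻¹, g⁻¹⁆ := by
    rw [commutatorElement_def]
    group
  rw [h2]
  exact h1

theorem claim {G : Type} [Group G] (x : ℕ → G) (k j : ℕ) :
    (QuotientGroup.mk (LC (fun i => x i ^ k) j) : G ⧸ (⊤ : Subgroup G).lowerCentralSeries (j + 1)) =
      QuotientGroup.mk (LC x j ^ (k ^ (j + 1))) := by
  induction j with
  | zero =>
    show QuotientGroup.mk (x 0 ^ k) = QuotientGroup.mk (x 0 ^ (k ^ (0 + 1)))
    rw [zero_add, pow_one]
  | succ j ih =>
    obtain ⟨u, hu, he⟩ : ∃ u ∈ (⊤ : Subgroup G).lowerCentralSeries (j + 1),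
        LC (fun i => x i ^ k) j = LC x j ^ (k ^ (j + 1)) * u := by
      rw [eq_comm, QuotientGroup.eq] at ih
      exact ⟨_, ih, by group⟩
    have e1 : LC (fun i => x i ^ k) (j + 1) = ⁅LC x j ^ (k ^ (j + 1)) * u, x (j + 1) ^ k⁆ := by
      show ⁅LC (fun i => x i ^ k) j, x (j + 1) ^ k⁆ = _
      rw [he]
    set π := QuotientGroup.mk' ((⊤ : Subgroup G).lowerCentralSeries (j + 1 + 1)) with hπ
    show π (LC (fun i => x i ^ k) (j + 1)) = π (LC x (j + 1) ^ (k ^ (j + 1 + 1)))
    rw [e1, map_commutatorElement, map_mul, map_pow, map_pow, map_pow]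
    have hcu : ∀ g, π u * g = g * π u := fun g => central hu g
    rw [comm_central hcu]
    have e2 : π (LC x (j + 1)) = ⁅π (LC x j), π (x (j + 1))⁆ := by
      rw [← map_commutatorElement]
      rfl
    rw [e2, comm_pow, ← pow_succ]
    intro g
    rw [← e2]
    exact central (LC_mem x (j + 1)) g

theorem mul : S_MUL := by
  intro G _ m hm x k
  have h := claim x k m
  rw [eq_comm, QuotientGroup.eq, hm, Subgroup.mem_bot] at h
  exact (inv_mul_eq_one.1 h).symm

end Pool.Agent.H706.GR
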